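import Pool.Prelude.Def_F_8db9d53c

/-! Soft Meyniel: greedy covering and the final real analysis. -/

set_option autoImplicit false

namespace Pool.Agent.SoftMeyniel

open N6ef48c04

/-- Greedy covering: if every nonempty part of `Q` has a strategy catching a fraction `p` of it,
then `N` strategies catch all of `Q` as soon as `(1 - p) ^ N * |Q| < 1`. -/
theorem greedy_cover_aux {W S : Type*} [Nonempty S] (c : S → W → Prop)
    (p : ℝ) (hp1 : p ≤ 1) (N : ℕ) :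
    ∀ Q : Finset W,
      (∀ P : Finset W, P ⊆ Q → P.Nonempty →
        ∃ σ : S, ∃ R : Finset W, R ⊆ P ∧ (∀ w ∈ R, c σ w) ∧ p * P.card ≤ R.card) →
      (1 - p) ^ N * (Q.card : ℝ) < 1 →
      ∃ f : Fin N → S, ∀ w ∈ Q, ∃ i, c (f i) w := by
  classical
  induction N with
  | zero =>
    intro Q _ hN
    simp only [pow_zero, one_mul] at hN
    have h0 : Q.card = 0 := by
      have : Q.card < 1 := by exact_mod_cast hN
      omega
    have hQ : Q = ∅ := Finset.card_eq_zero.mp h0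
    subst hQ
    exact ⟨fun i => i.elim0, fun w hw => absurd hw (Finset.notMem_empty w)⟩
  | succ N ih =>
    intro Q h hN
    by_cases hQ : Q.Nonempty
    · obtain ⟨σ, R, hRQ, hRc, hcard⟩ := h Q (Finset.Subset.refl Q) hQ
      have hsub : Q \ R ⊆ Q := Finset.sdiff_subset
      have hc1 : ((Q \ R).card : ℝ) ≤ (1 - p) * Q.card := by
        have h1 : (Q \ R).card + R.card = Q.card := Finset.card_sdiff_add_card_eq_card hRQ
        have h2 : ((Q \ R).card : ℝ) + R.card = Q.card := by exact_mod_cast h1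
        linarith
      have hN' : (1 - p) ^ N * ((Q \ R).card : ℝ) < 1 := by
        have h3 : (0 : ℝ) ≤ (1 - p) ^ N := pow_nonneg (by linarith) N
        calc (1 - p) ^ N * ((Q \ R).card : ℝ) ≤ (1 - p) ^ N * ((1 - p) * Q.card) :=
              mul_le_mul_of_nonneg_left hc1 h3
          _ = (1 - p) ^ (N + 1) * Q.card := by rw [pow_succ]; ring
          _ < 1 := hN
      obtain ⟨f, hf⟩ := ih (Q \ R)
        (fun P hP hPn => h P (hP.trans hsub) hPn) hN'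
      refine ⟨Fin.cons σ f, fun w hw => ?_⟩
      by_cases hwR : w ∈ R
      · exact ⟨0, by simpa using hRc w hwR⟩
      · obtain ⟨i, hi⟩ := hf w (Finset.mem_sdiff.mpr ⟨hw, hwR⟩)
        exact ⟨i.succ, by simpa using hi⟩
    · rw [Finset.not_nonempty_iff_eq_empty] at hQ
      subst hQ
      exact ⟨fun _ => Classical.arbitrary S, fun w hw => absurd hw (Finset.notMem_empty w)⟩

/-- Greedy covering with `N > log |Q| / p` strategies. -/
theorem greedy_cover {W S : Type*} [Nonempty S] (c : S → W → Prop)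
    (p : ℝ) (_hp0 : 0 < p) (hp1 : p ≤ 1) (N : ℕ) (Q : Finset W)
    (h : ∀ P : Finset W, P ⊆ Q → P.Nonempty →
        ∃ σ : S, ∃ R : Finset W, R ⊆ P ∧ (∀ w ∈ R, c σ w) ∧ p * P.card ≤ R.card)
    (hN : Real.log Q.card < p * N) :
    ∃ f : Fin N → S, ∀ w ∈ Q, ∃ i, c (f i) w := by
  refine greedy_cover_aux c p hp1 N Q h ?_
  rcases Nat.eq_zero_or_pos Q.card with h0 | hpos
  · rw [h0]; simp
  · have hQ : (0 : ℝ) < Q.card := by exact_mod_cast hpos
    have h1 : (1 - p) ^ N ≤ Real.exp (-(p * N)) := by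
      have h2 : 1 - p ≤ Real.exp (-p) := by
        have := Real.add_one_le_exp (-p)
        linarith
      calc (1 - p) ^ N ≤ (Real.exp (-p)) ^ N := pow_le_pow_left₀ (by linarith) h2 N
        _ = Real.exp (-(p * N)) := by
          rw [← Real.exp_nat_mul]; congr 1; ring
    have h3 : (Q.card : ℝ) < Real.exp (p * N) := by
      rw [← Real.exp_log hQ]
      exact Real.exp_lt_exp.mpr hN
    calc (1 - p) ^ N * (Q.card : ℝ) ≤ Real.exp (-(p * N)) * Q.card :=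
          mul_le_mul_of_nonneg_right h1 hQ.le
      _ < Real.exp (-(p * N)) * Real.exp (p * N) :=
          mul_lt_mul_of_pos_left h3 (Real.exp_pos _)
      _ = 1 := by rw [← Real.exp_add]; simp

/-- The same with the number of walks `|Q| ≤ n ^ T` and the fraction `n ^ (-2/3)`:
`N = ⌊T * log n * n ^ (2/3)⌋ + 1` strategies are enough. -/
theorem greedy_cover_walks {W S : Type*} [Nonempty S] (c : S → W → Prop)
    (n T : ℕ) (hn : 1 ≤ n) (Q : Finset W) (hQ : Q.card ≤ n ^ T)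
    (h : ∀ P : Finset W, P ⊆ Q → P.Nonempty →
        ∃ σ : S, ∃ R : Finset W, R ⊆ P ∧ (∀ w ∈ R, c σ w) ∧
          (n : ℝ) ^ (-(2 / 3 : ℝ)) * P.card ≤ R.card) :
    ∃ f : Fin (⌊(T : ℝ) * Real.log n * (n : ℝ) ^ (2 / 3 : ℝ)⌋₊ + 1) → S,
      ∀ w ∈ Q, ∃ i, c (f i) w := by
  have hn' : (1 : ℝ) ≤ n := by exact_mod_cast hn
  have hn0 : (0 : ℝ) < n := by linarith
  refine greedy_cover c ((n : ℝ) ^ (-(2 / 3 : ℝ))) (Real.rpow_pos_of_pos hn0 _)
    (Real.rpow_le_one_of_one_le_of_nonpos hn' (by norm_num)) _ Q h ?_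
  have h1 : Real.log Q.card ≤ T * Real.log n := by
    rcases Nat.eq_zero_or_pos Q.card with h0 | hpos
    · rw [h0]
      simp only [Nat.cast_zero, Real.log_zero]
      exact mul_nonneg (Nat.cast_nonneg T) (Real.log_nonneg hn')
    · have hQ0 : (0 : ℝ) < Q.card := by exact_mod_cast hpos
      have hQ1 : (Q.card : ℝ) ≤ (n : ℝ) ^ T := by exact_mod_cast hQ
      calc Real.log Q.card ≤ Real.log ((n : ℝ) ^ T) := Real.log_le_log hQ0 hQ1
        _ = T * Real.log n := by rw [Real.log_pow]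
  have h2 : (T : ℝ) * Real.log n * (n : ℝ) ^ (2 / 3 : ℝ) <
      ((⌊(T : ℝ) * Real.log n * (n : ℝ) ^ (2 / 3 : ℝ)⌋₊ + 1 : ℕ) : ℝ) := by
    push_cast
    exact Nat.lt_floor_add_one _
  have h3 : (n : ℝ) ^ (-(2 / 3 : ℝ)) * (n : ℝ) ^ (2 / 3 : ℝ) = 1 := by
    rw [← Real.rpow_add hn0]; norm_num
  calc Real.log Q.card ≤ T * Real.log n := h1
    _ = (n : ℝ) ^ (-(2 / 3 : ℝ)) * ((T : ℝ) * Real.log n * (n : ℝ) ^ (2 / 3 : ℝ)) := by
        rw [mul_comm ((T : ℝ) * Real.log n) _, ← mul_assoc, h3, one_mul]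
    _ < _ := mul_lt_mul_of_pos_left h2 (Real.rpow_pos_of_pos hn0 _)

/-- `log x + 1 ≤ 85 * x ^ (1/84)` for `x ≥ 1`. -/
theorem log_add_one_le {x : ℝ} (hx : 1 ≤ x) : Real.log x + 1 ≤ 85 * x ^ (1 / 84 : ℝ) := by
  have h1 : Real.log x ≤ x ^ (1 / 84 : ℝ) / (1 / 84 : ℝ) :=
    Real.log_le_rpow_div (by linarith) (by norm_num)
  have h2 : (1 : ℝ) ≤ x ^ (1 / 84 : ℝ) := Real.one_le_rpow hx (by norm_num)
  have h3 : x ^ (1 / 84 : ℝ) / (1 / 84 : ℝ) = 84 * x ^ (1 / 84 : ℝ) := by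
    field_simp
  linarith

/-- Final step: the combinatorial bound with parameter `k` gives the soft Meyniel bound
with the exponent `6/7`. -/
theorem soft_of_bound (A : ℝ) (hA : 0 ≤ A)
    (h : ∀ (V : Type) [Fintype V] (G : SimpleGraph V), G.Connected → ∀ k : ℕ, 1 ≤ k →
      (copNumber G : ℝ) ≤ (Fintype.card V : ℝ) / k +
        A * k * (Real.log (Fintype.card V) + 1) ^ 2 * (Fintype.card V : ℝ) ^ (2 / 3 : ℝ) + A) :
    ∃ ε C : ℝ, 0 < ε ∧ 0 < C ∧ ∀ (V : Type) [Fintype V] (G : SimpleGraph V), G.Connected →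
      (copNumber G : ℝ) ≤ C * (Fintype.card V : ℝ) ^ ((1 : ℝ) - ε) := by
  refine ⟨1 / 7, 1 + A * 2 * 7225 + A, by norm_num, by positivity, ?_⟩
  intro V _ G hG
  have hne : Nonempty V := hG.nonempty
  have hcard : 1 ≤ Fintype.card V := Fintype.card_pos
  obtain ⟨n, hn⟩ : ∃ n : ℝ, n = (Fintype.card V : ℝ) := ⟨_, rfl⟩
  have hn1 : (1 : ℝ) ≤ n := by rw [hn]; exact_mod_cast hcard
  have hn0 : (0 : ℝ) < n := by linarith
  have hr1 : (1 : ℝ) ≤ n ^ (1 / 6 : ℝ) := Real.one_le_rpow hn1 (by norm_num)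
  obtain ⟨k, hk⟩ : ∃ k : ℕ, k = ⌈n ^ (1 / 6 : ℝ)⌉₊ := ⟨_, rfl⟩
  have hk1 : 1 ≤ k := by
    rw [hk]
    exact Nat.one_le_ceil_iff.mpr (by linarith)
  have hkl : n ^ (1 / 6 : ℝ) ≤ k := by rw [hk]; exact Nat.le_ceil _
  have hku : (k : ℝ) ≤ 2 * n ^ (1 / 6 : ℝ) := by
    have := Nat.ceil_lt_add_one (a := n ^ (1 / 6 : ℝ)) (by linarith)
    rw [hk]; linarith
  have hb := h V G hG k hk1
  rw [← hn] at hb ⊢
  have hk0 : (0 : ℝ) < k := by linarith
  have e1 : n / k ≤ n ^ (6 / 7 : ℝ) := by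
    calc n / k ≤ n / n ^ (1 / 6 : ℝ) := by
          apply div_le_div_of_nonneg_left hn0.le (by linarith) hkl
      _ = n ^ (5 / 6 : ℝ) := by
          rw [div_eq_iff (by positivity), ← Real.rpow_add hn0]
          norm_num
      _ ≤ n ^ (6 / 7 : ℝ) := Real.rpow_le_rpow_of_exponent_le hn1 (by norm_num)
  have e2 : (Real.log n + 1) ^ 2 ≤ 7225 * n ^ (1 / 42 : ℝ) := by
    have h1 := log_add_one_le hn1
    have h0 : 0 ≤ Real.log n + 1 := by
      have := Real.log_nonneg hn1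
      linarith
    calc (Real.log n + 1) ^ 2 ≤ (85 * n ^ (1 / 84 : ℝ)) ^ 2 := pow_le_pow_left₀ h0 h1 2
      _ = 7225 * (n ^ (1 / 84 : ℝ) * n ^ (1 / 84 : ℝ)) := by ring
      _ = 7225 * n ^ (1 / 42 : ℝ) := by rw [← Real.rpow_add hn0]; norm_num
  have e3 : A * k * (Real.log n + 1) ^ 2 * n ^ (2 / 3 : ℝ) ≤ A * 2 * 7225 * n ^ (6 / 7 : ℝ) := by
    calc A * k * (Real.log n + 1) ^ 2 * n ^ (2 / 3 : ℝ)
        ≤ A * (2 * n ^ (1 / 6 : ℝ)) * (7225 * n ^ (1 / 42 : ℝ)) * n ^ (2 / 3 : ℝ) := by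
          gcongr
      _ = A * 2 * 7225 * (n ^ (1 / 6 : ℝ) * n ^ (1 / 42 : ℝ) * n ^ (2 / 3 : ℝ)) := by ring
      _ = A * 2 * 7225 * n ^ (6 / 7 : ℝ) := by
          rw [← Real.rpow_add hn0, ← Real.rpow_add hn0]; norm_num
  have e4 : A ≤ A * n ^ (6 / 7 : ℝ) := by
    have : (1 : ℝ) ≤ n ^ (6 / 7 : ℝ) := Real.one_le_rpow hn1 (by norm_num)
    nlinarith
  have e5 : (1 : ℝ) - 1 / 7 = 6 / 7 := by norm_num
  rw [e5]
  calc (copNumber G : ℝ) ≤ n / k + A * k * (Real.log n + 1) ^ 2 * n ^ (2 / 3 : ℝ) + A := hb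
    _ ≤ n ^ (6 / 7 : ℝ) + A * 2 * 7225 * n ^ (6 / 7 : ℝ) + A * n ^ (6 / 7 : ℝ) := by linarith
    _ = (1 + A * 2 * 7225 + A) * n ^ (6 / 7 : ℝ) := by ring

end Pool.Agent.SoftMeyniel
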